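import Pool.Agent.Helper15.EP.St

set_option autoImplicit false

/-!
# EP MODULE LDB: Lindeloef bound for the L-polynomials of characters modulo `r`
-/

open Polynomial

namespace Pool.Agent.Helper90.EP

open Pool.Agent.Helper15.FC Pool.Agent.Helper15.EP

theorem two_le_qr (F : Type) [Field F] [Fintype F] : (2 : ℝ) ≤ qr F := by
  unfold qr
  exact_mod_cast Fintype.one_lt_card (α := F)

theorem norm_Psi_le (hIRB : StIRB) (F : Type) [Field F] [Fintype F] (Χ : F[X] → ℂ) (hX : CM Χ)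
    (j : ℕ) : ‖Psi Χ j‖ ≤ ∑ d ∈ j.divisors, qr F ^ d := by
  unfold Psi
  refine (norm_sum_le _ _).trans (Finset.sum_le_sum fun d hd => ?_)
  have hd1 : 1 ≤ d := Nat.pos_of_mem_divisors hd
  have h1 : ‖∑ P ∈ Ir F d, Χ P ^ (j / d)‖ ≤ ((Ir F d).card : ℝ) := by
    refine (norm_sum_le _ _).trans ?_
    have h2 : ∀ P ∈ Ir F d, ‖Χ P ^ (j / d)‖ ≤ (1 : ℝ) := by
      intro P hP
      have hPM : P.Monic := by
        classical
        unfold Ir at hP
        exact (mem_Mn.1 (Finset.mem_filter.1 hP).1).1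
      rw [norm_pow]
      exact pow_le_one₀ (norm_nonneg _) (hX.2.2 P hPM)
    refine (Finset.sum_le_sum h2).trans ?_
    rw [Finset.sum_const, nsmul_eq_mul, mul_one]
  rw [norm_mul, Complex.norm_natCast]
  exact (mul_le_mul_of_nonneg_left h1 (Nat.cast_nonneg d)).trans (hIRB F d hd1)

theorem hLDB (hMAJ : StMAJ) (hLOG : StLOG) (hCMH : StCMH) (hZS : StZS) (hRH : StRH)
    (hIRB : StIRB) : StLDB := by
  intro F _ _ δ hδ
  obtain ⟨C0, hC0, hM⟩ := hMAJ
  have hq2 := two_le_qr F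
  have hlog : 0 < Real.log (qr F) := Real.log_pos (by linarith)
  have hdl : 0 < δ * Real.log (qr F) := mul_pos hδ hlog
  obtain ⟨K, hK1, hK⟩ : ∃ K : ℕ, 1 ≤ K ∧ C0 / K ≤ δ * Real.log (qr F) := by
    refine ⟨⌈C0 / (δ * Real.log (qr F))⌉₊ + 1, Nat.le_add_left 1 _, ?_⟩
    have h1 : C0 / (δ * Real.log (qr F)) ≤ ((⌈C0 / (δ * Real.log (qr F))⌉₊ + 1 : ℕ) : ℝ) := by
      push_cast
      have := Nat.le_ceil (C0 / (δ * Real.log (qr F)))
      linarith
    have h2 : (0 : ℝ) < ((⌈C0 / (δ * Real.log (qr F))⌉₊ + 1 : ℕ) : ℝ) := by positivity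
    rw [div_le_iff₀ hdl] at h1
    rw [div_le_iff₀ h2]
    linarith
  obtain ⟨bb, hbb⟩ := hM K hK1
  have hKpos : (0 : ℝ) < K := by exact_mod_cast hK1
  refine ⟨Real.exp (∑ j ∈ Finset.Icc 1 (2 * K), C0 * ∑ d ∈ j.divisors, qr F ^ d), ?_, ?_⟩
  · refine Real.one_le_exp (Finset.sum_nonneg fun j _ => ?_)
    have : 0 ≤ ∑ d ∈ j.divisors, qr F ^ d := Finset.sum_nonneg fun d _ => by positivity
    nlinarith
  · intro r χ u hr hχ hu
    have hCM : CM (Hk r 0 χ (1 : MulChar (TN F 0) ℂ)) := hCMH F r 0 χ 1 hr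
    have hA : ∀ d : ℕ, r.natDegree ≤ d → Asum (Hk r 0 χ (1 : MulChar (TN F 0) ℂ)) d = 0 :=
      fun d hd => hZS F r 0 χ 1 hr (Or.inr hχ) d hd
    have hR : ∀ z : ℂ, (Lp (Hk r 0 χ (1 : MulChar (TN F 0) ℂ)) r.natDegree).eval z = 0 →
        1 ≤ qr F * ‖z‖ ^ 2 := fun z hz => hRH F r 0 χ 1 hr (Or.inr hχ) z hz
    have h := hLOG C0 K bb hK1 hbb F _ r.natDegree hCM hA hR u hu
    refine h.trans ?_
    rw [Real.exp_add]
    have hu1 : ‖u‖ ≤ 1 := by
      by_contra hcon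
      push Not at hcon
      nlinarith [norm_nonneg u]
    have hmain : (∑ j ∈ Finset.Icc 1 (2 * K), ((bb j / j : ℝ) : ℂ) *
        Psi (Hk r 0 χ (1 : MulChar (TN F 0) ℂ)) j * u ^ j).re ≤
        ∑ j ∈ Finset.Icc 1 (2 * K), C0 * ∑ d ∈ j.divisors, qr F ^ d := by
      refine (Complex.re_le_norm _).trans ((norm_sum_le _ _).trans
        (Finset.sum_le_sum fun j hj => ?_))
      have hj1 : 1 ≤ j := (Finset.mem_Icc.1 hj).1
      have hjr : (1 : ℝ) ≤ j := by exact_mod_cast hj1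
      have h1 : ‖((bb j / j : ℝ) : ℂ)‖ ≤ C0 := by
        rw [Complex.norm_real, Real.norm_eq_abs, abs_div, Nat.abs_cast]
        exact (div_le_self (abs_nonneg _) hjr).trans (hbb.2.1 j)
      have h2 := norm_Psi_le hIRB F _ hCM j
      have h3 : ‖u ^ j‖ ≤ 1 := by
        rw [norm_pow]
        exact pow_le_one₀ (norm_nonneg _) hu1
      rw [norm_mul, norm_mul]
      have hC0' : 0 ≤ C0 := by linarith
      calc ‖((bb j / j : ℝ) : ℂ)‖ * ‖Psi (Hk r 0 χ (1 : MulChar (TN F 0) ℂ)) j‖ * ‖u ^ j‖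
          ≤ ‖((bb j / j : ℝ) : ℂ)‖ * ‖Psi (Hk r 0 χ (1 : MulChar (TN F 0) ℂ)) j‖ * 1 :=
            mul_le_mul_of_nonneg_left h3 (mul_nonneg (norm_nonneg _) (norm_nonneg _))
        _ = ‖((bb j / j : ℝ) : ℂ)‖ * ‖Psi (Hk r 0 χ (1 : MulChar (TN F 0) ℂ)) j‖ := mul_one _
        _ ≤ C0 * ∑ d ∈ j.divisors, qr F ^ d :=
            mul_le_mul h1 h2 (norm_nonneg _) hC0'
    have hexp : Real.exp (C0 * r.natDegree / K) ≤ qr F ^ (δ * r.natDegree) := by
      rw [Real.rpow_def_of_pos (by linarith : (0 : ℝ) < qr F)]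
      refine Real.exp_le_exp.2 ?_
      have h4 : C0 * (r.natDegree : ℝ) / K = C0 / K * r.natDegree := by ring
      rw [h4]
      have h5 := mul_le_mul_of_nonneg_right hK (Nat.cast_nonneg (α := ℝ) r.natDegree)
      calc C0 / K * (r.natDegree : ℝ) ≤ δ * Real.log (qr F) * r.natDegree := h5
        _ = Real.log (qr F) * (δ * r.natDegree) := by ring
    rw [mul_comm]
    exact mul_le_mul (Real.exp_le_exp.2 hmain) hexp (Real.exp_nonneg _) (Real.exp_nonneg _)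

end Pool.Agent.Helper90.EP
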