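import Pool.Agent.Helper68.EP.St6

/-!
# Project EP (MP_cb927e_an): module FZ
-/

set_option autoImplicit false

open MeasureTheory Set Filter Topology
open scoped ENNReal RealInnerProductSpace

namespace Pool.Agent.Helper90.EP

open Pool.Agent.Helper68.LM (Pl BB Bd Av HL ft fm DQ)
open Pool.Agent.Helper68.EP Pool.Agent.Helper20.RG
open Pool.Agent.Helper20.RL (RQ Rich BM Fml)
open Pool.Agent.Helper61.Lacunary (ConditionG LpBounded)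

theorem graph_scale_FZ {φ τ : ℝ → ℝ} (h : Graph φ τ) {ℓ : ℝ} (hℓ : 0 < ℓ) :
    Graph (fun t => φ (ℓ * t) / ℓ) (fun t => τ (ℓ * t)) := by
  refine ⟨fun t => h.1 _, fun t t' htt => ?_⟩
  have h1 := h.2 (ℓ * t) (ℓ * t') (mul_le_mul_of_nonneg_left htt hℓ.le)
  have e1 : φ (ℓ * t') / ℓ - φ (ℓ * t) / ℓ = (φ (ℓ * t') - φ (ℓ * t)) / ℓ := by ring
  constructor
  · show τ (ℓ * t) * (t' - t) ≤ φ (ℓ * t') / ℓ - φ (ℓ * t) / ℓ
    rw [e1, le_div_iff₀ hℓ]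
    calc τ (ℓ * t) * (t' - t) * ℓ = τ (ℓ * t) * (ℓ * t' - ℓ * t) := by ring
      _ ≤ _ := h1.1
  · show φ (ℓ * t') / ℓ - φ (ℓ * t) / ℓ ≤ τ (ℓ * t') * (t' - t)
    rw [e1, div_le_iff₀ hℓ]
    calc φ (ℓ * t') - φ (ℓ * t) ≤ τ (ℓ * t') * (ℓ * t' - ℓ * t) := h1.2
      _ = _ := by ring

theorem hFZ (_hPT : Pool.Agent.Helper20.RG.StPT) (hCOV : Pool.Agent.Helper20.RG.StCOV)
    (hCPP : StCPP) (hFM : StFM) (hRES : Pool.Agent.Helper20.RG.StRES)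
    (hFIN : Pool.Agent.Helper20.RG.StFIN) : StFZ := by
  intro Ω p hO hC hB h0 hp hp2 hp3 hG
  have hne : Ω.Nonempty := ⟨0, h0⟩
  obtain ⟨n, P, u, v, ℓ, φ, τ, hPiece, hcov⟩ := hCOV Ω hO hC hB hne
  refine hFIN Ω p n P u v ℓ φ τ hB hp hPiece hcov ?_
  intro i hi
  have hpi := hPiece i hi
  refine hRES Ω (P i) (u i) (v i) (ℓ i) (φ i) (τ i) p hpi hp.le ?_
  intro c
  obtain ⟨A, hA, hgap⟩ := hCPP Ω p hO hC hB hne (by linarith) hG (P i) (u i) (v i) (ℓ i) (φ i)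
    (τ i) hpi
  have hgr : Graph (fun t => φ i (ℓ i * t) / ℓ i) (fun t => τ i (ℓ i * t)) :=
    graph_scale_FZ hpi.graph hpi.pos
  exact hFM _ _ A p c hgr hA hgap hp hp2 hp3

end Pool.Agent.Helper90.EP
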